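import Pool.Agent.Lib.MP_28303a_al.TW.Graph
import Pool.Agent.Lib.MP_28303a_al.NK.H91.KTr

/-! # TRIV: the trivial group -/

set_option autoImplicit false

namespace Pool.Agent.NegK.TW.H67

open Pool.Agent.NegK MonoidAlgebra

universe u

/-- `k[1] = k`. -/
noncomputable def eqv (k : Type u) [Ring k] : MonoidAlgebra k PUnit.{u + 1} ≃+* k :=
  MonoidAlgebra.uniqueRingEquiv PUnit.{u + 1}

theorem eqv_single {k : Type u} [Ring k] (r : k) : eqv k (single (1 : PUnit.{u + 1}) r) = r := by
  simp [eqv]

theorem cmap_eq {k k' : Type u} [Ring k] [Ring k'] (f : k →+* k') :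
    cmap PUnit.{u + 1} f =
      ((eqv k').symm : k' →+* MonoidAlgebra k' PUnit.{u + 1}).comp
        (f.comp (eqv k : MonoidAlgebra k PUnit.{u + 1} →+* k)) := by
  have key : ∀ (g : PUnit.{u + 1}) (r : k), eqv k' (cmap PUnit.{u + 1} f (single g r)) =
      f (eqv k (single g r)) := by
    intro g r
    have hg : g = 1 := rfl
    rw [cmap_single, hg, eqv_single, eqv_single]
  refine RingHom.ext fun x => ?_
  rw [RingHom.comp_apply, RingHom.comp_apply]
  show cmap PUnit.{u + 1} f x = (eqv k').symm (f (eqv k x))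
  rw [RingEquiv.eq_symm_apply]
  induction x using MonoidAlgebra.induction_linear with
  | zero => rw [map_zero, map_zero, map_zero, map_zero]
  | add x y hx hy => rw [map_add, map_add, map_add, map_add, hx, hy]
  | single g r => exact key g r

theorem surj_of {k k' : Type u} [Ring k] [Ring k'] (f : k →+* k')
    (hf : Function.Surjective (K0.map f)) :
    Function.Surjective (K0.map (cmap PUnit.{u + 1} f)) := by
  rw [cmap_eq]
  exact H64.K0.surj_comp _ _ (H64.K0.surj_equiv _) (H64.K0.surj_comp _ _ hf (H64.K0.surj_equiv _))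

theorem regCoh_of_regular {A : Type u} [Ring A] (hA : RegularRing A) : RegCoh A := by
  intro n N hN
  exact hA.2 N (Module.Finite.iff_fg.2 hN)

theorem triv (hP : PolykStatement.{u}) : TrivStatement.{u} := by
  refine ⟨fun R _ hR => ⟨surj_of _ (hP R hR), surj_of _ (H64.surj_laurent H50.free R hR)⟩,
    fun R _ hR => regCoh_of_regular ?_⟩
  exact H91.regularRing_transfer (eqv R).symm hR

end Pool.Agent.NegK.TW.H67
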